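import Mathlib

set_option autoImplicit false

/-!
# Fourier coefficients of the squared modulus of a trigonometric polynomial on the unit cube

The same as `Lib_helper43.Tori.Fourier`, in every dimension.
-/

namespace Pool.Agent.TDS

open MeasureTheory Complex

variable {d : ℕ}

/-- The phase `v · x`. -/
noncomputable def ph (v : (Fin d → ℤ)) (x : Fin d → ℝ) : ℂ := ∑ i, ((v i : ℤ) : ℂ) * ((x i : ℝ) : ℂ)

/-- The character `exp (2 π i v · x)`. -/
noncomputable def ch (v : (Fin d → ℤ)) (x : Fin d → ℝ) : ℂ := Complex.exp (2 * Real.pi * Complex.I * ph v x)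

lemma ch_add (v w : (Fin d → ℤ)) (x : Fin d → ℝ) : ch (v + w) x = ch v x * ch w x := by
  unfold ch ph
  rw [← Complex.exp_add]
  congr 1
  simp only [Pi.add_apply, Int.cast_add, add_mul, Finset.sum_add_distrib]
  ring

lemma ch_zero (x : Fin d → ℝ) : ch 0 x = 1 := by
  unfold ch ph; simp

lemma ch_neg (v : (Fin d → ℤ)) (x : Fin d → ℝ) : ch (-v) x = (starRingEnd ℂ) (ch v x) := by
  unfold ch ph
  rw [← Complex.exp_conj]
  congr 1
  simp only [map_mul, map_sum, Complex.conj_ofReal, Complex.conj_I, Pi.neg_apply, Int.cast_neg,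
    map_intCast, map_ofNat, neg_mul, Finset.sum_neg_distrib]
  ring

lemma continuous_ch (v : (Fin d → ℤ)) : Continuous (ch v) := by
  unfold ch ph; fun_prop

lemma integral_exp_one (k : ℤ) :
    ∫ t in Set.Icc (0 : ℝ) 1, Complex.exp (2 * Real.pi * Complex.I * ((k : ℂ) * (t : ℂ))) =
      if k = 0 then 1 else 0 := by
  rw [integral_Icc_eq_integral_Ioc, ← intervalIntegral.integral_of_le zero_le_one]
  split_ifs with h
  · subst h; simp
  · have hk : (2 * Real.pi * Complex.I * (k : ℂ)) ≠ 0 := by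
      have : (k : ℂ) ≠ 0 := by exact_mod_cast h
      have hpi : (Real.pi : ℂ) ≠ 0 := by exact_mod_cast Real.pi_ne_zero
      simp [this, hpi, Complex.I_ne_zero]
    have h1 : ∀ t : ℝ, Complex.exp (2 * Real.pi * Complex.I * ((k : ℂ) * (t : ℂ))) =
        Complex.exp ((2 * Real.pi * Complex.I * (k : ℂ)) * t) := by
      intro t; congr 1; ring
    simp only [h1]
    rw [integral_exp_mul_complex hk]
    simp only [Complex.ofReal_one, mul_one, Complex.ofReal_zero, mul_zero, Complex.exp_zero]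
    have : Complex.exp (2 * Real.pi * Complex.I * (k : ℂ)) = 1 := by
      rw [Complex.exp_eq_one_iff]
      exact ⟨k, by ring⟩
    rw [this]; simp

lemma integral_ch (v : (Fin d → ℤ)) :
    ∫ x in Set.Icc (0 : Fin d → ℝ) 1, ch v x = if v = 0 then 1 else 0 := by
  have hset : (Set.Icc (0 : Fin d → ℝ) 1) = Set.pi Set.univ (fun _ : Fin d => Set.Icc (0 : ℝ) 1) := by
    rw [Set.pi_univ_Icc]; rfl
  have hmeas : (volume : Measure (Fin d → ℝ)).restrict (Set.Icc (0 : Fin d → ℝ) 1) =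
      Measure.pi (fun _ : Fin d => (volume : Measure ℝ).restrict (Set.Icc (0 : ℝ) 1)) := by
    rw [hset, volume_pi, Measure.restrict_pi_pi]
  rw [hmeas]
  have hprod : ∀ x : Fin d → ℝ, ch v x =
      ∏ i, Complex.exp (2 * Real.pi * Complex.I * ((v i : ℂ) * (x i : ℂ))) := by
    intro x
    unfold ch ph
    rw [← Complex.exp_sum, Finset.mul_sum]
  simp only [hprod]
  rw [integral_fintype_prod_eq_prod (𝕜 := ℂ) (fun i (t : ℝ) =>
    Complex.exp (2 * Real.pi * Complex.I * ((v i : ℂ) * (t : ℂ))))]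
  simp only [integral_exp_one]
  split_ifs with h
  · subst h; simp
  · obtain ⟨i, hi⟩ : ∃ i, v i ≠ 0 := by
      by_contra hcon
      push Not at hcon
      exact h (funext hcon)
    exact Finset.prod_eq_zero (Finset.mem_univ i) (if_neg hi)

/-- The Fourier coefficient of `‖u‖²`. -/
lemma coeff_eq (c : (Fin d → ℤ) →₀ ℂ) (v : (Fin d → ℤ)) :
    ∫ x in Set.Icc (0 : Fin d → ℝ) 1,
      ((‖c.sum fun ξ a => a * ch ξ x‖ ^ 2 : ℝ) : ℂ) * ch (-v) x =
      ∑ η ∈ c.support, c (η + v) * (starRingEnd ℂ) (c η) := by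
  classical
  have h1 : ∀ x : Fin d → ℝ, ((‖c.sum fun ξ a => a * ch ξ x‖ ^ 2 : ℝ) : ℂ) * ch (-v) x =
      ∑ ξ ∈ c.support, ∑ η ∈ c.support, c ξ * (starRingEnd ℂ) (c η) * ch (ξ - η - v) x := by
    intro x
    have h2 : ((‖c.sum fun ξ a => a * ch ξ x‖ ^ 2 : ℝ) : ℂ) =
        (c.sum fun ξ a => a * ch ξ x) * (starRingEnd ℂ) (c.sum fun ξ a => a * ch ξ x) := by
      rw [Complex.mul_conj, Complex.normSq_eq_norm_sq]
    rw [h2]
    simp only [Finsupp.sum]
    rw [map_sum, Finset.sum_mul_sum, Finset.sum_mul]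
    refine Finset.sum_congr rfl fun ξ _ => ?_
    rw [Finset.sum_mul]
    refine Finset.sum_congr rfl fun η _ => ?_
    rw [map_mul, ← ch_neg]
    have : ξ - η - v = ξ + -η + -v := by abel
    rw [this, ch_add, ch_add]
    ring
  simp only [h1]
  have hint : ∀ (ξ η : (Fin d → ℤ)), Integrable (fun x => c ξ * (starRingEnd ℂ) (c η) * ch (ξ - η - v) x)
      ((volume : Measure (Fin d → ℝ)).restrict (Set.Icc (0 : Fin d → ℝ) 1)) := by
    intro ξ η
    exact (continuous_const.mul (continuous_ch _)).integrableOn_Icc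
  rw [integral_finsetSum _ fun ξ _ => integrable_finsetSum _ fun η _ => hint ξ η]
  have h3 : ∀ ξ ∈ c.support, ∫ x in Set.Icc (0 : Fin d → ℝ) 1, ∑ η ∈ c.support,
      c ξ * (starRingEnd ℂ) (c η) * ch (ξ - η - v) x =
      ∑ η ∈ c.support, if ξ = η + v then c ξ * (starRingEnd ℂ) (c η) else 0 := by
    intro ξ _
    rw [integral_finsetSum _ fun η _ => hint ξ η]
    refine Finset.sum_congr rfl fun η _ => ?_
    rw [integral_const_mul, integral_ch]
    have : ξ - η - v = 0 ↔ ξ = η + v := by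
      rw [sub_sub, sub_eq_zero]
    simp only [this]
    split_ifs
    · rw [mul_one]
    · rw [mul_zero]
  rw [Finset.sum_congr rfl h3, Finset.sum_comm]
  refine Finset.sum_congr rfl fun η _ => ?_
  rw [Finset.sum_ite_eq' c.support (η + v) fun ξ => c ξ * (starRingEnd ℂ) (c η)]
  split_ifs with h
  · rfl
  · rw [Finsupp.notMem_support_iff.1 h, zero_mul]

lemma coeff_norm_le (c : (Fin d → ℤ) →₀ ℂ) (v : (Fin d → ℤ)) :
    ‖∫ x in Set.Icc (0 : Fin d → ℝ) 1,
      ((‖c.sum fun ξ a => a * ch ξ x‖ ^ 2 : ℝ) : ℂ) * ch (-v) x‖ ≤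
      ∑ η ∈ c.support, ‖c (η + v)‖ * ‖c η‖ := by
  rw [coeff_eq]
  refine (norm_sum_le _ _).trans (le_of_eq ?_)
  refine Finset.sum_congr rfl fun η _ => ?_
  rw [norm_mul, RCLike.norm_conj]

end Pool.Agent.TDS
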