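import Pool.Agent.TDS.Cnt

set_option autoImplicit false

/-!
# The weighted autocorrelation bound on a sphere, in every dimension
-/

namespace Pool.Agent.TDS

/-- the first nonzero coordinate is positive -/
def pos {d : ℕ} (x : Fin d → ℤ) : Prop := ∃ i, 0 < x i ∧ ∀ j, j < i → x j = 0

theorem pos_or {d : ℕ} (x : Fin d → ℤ) (hx : x ≠ 0) : pos x ∨ pos (-x) := by
  classical
  have hne : (Finset.univ.filter fun i => x i ≠ 0).Nonempty := by
    by_contra hcon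
    rw [Finset.not_nonempty_iff_eq_empty] at hcon
    apply hx
    funext i
    by_contra hi
    have : i ∈ (Finset.univ.filter fun i => x i ≠ 0) :=
      Finset.mem_filter.2 ⟨Finset.mem_univ i, hi⟩
    rw [hcon] at this
    exact absurd this (Finset.notMem_empty i)
  set i := (Finset.univ.filter fun i => x i ≠ 0).min' hne with hi
  have hi1 : x i ≠ 0 := (Finset.mem_filter.1 (Finset.min'_mem _ hne)).2
  have hi2 : ∀ j, j < i → x j = 0 := by
    intro j hj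
    by_contra hcon
    exact absurd (Finset.min'_le _ j (Finset.mem_filter.2 ⟨Finset.mem_univ j, hcon⟩)) (not_le.2 hj)
  rcases lt_or_gt_of_ne hi1 with h | h
  · right
    exact ⟨i, by simpa using h, fun j hj => by simp [hi2 j hj]⟩
  · left
    exact ⟨i, h, hi2⟩

theorem pos_add {d : ℕ} (x y : Fin d → ℤ) (hx : pos x) (hy : pos y) : x + y ≠ 0 := by
  obtain ⟨i, hi, hi'⟩ := hx
  obtain ⟨k, hk, hk'⟩ := hy
  intro h
  rcases lt_trichotomy i k with hlt | heq | hgt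
  · have := congrFun h i
    rw [Pi.add_apply, hk' i hlt, Pi.zero_apply] at this
    omega
  · subst heq
    have := congrFun h i
    rw [Pi.add_apply, Pi.zero_apply] at this
    omega
  · have := congrFun h k
    rw [Pi.add_apply, hi' k hgt, Pi.zero_apply] at this
    omega

/-- the positive class -/
def P1 {d : ℕ} (v ξ : Fin d → ℤ) : Prop := pos (2 • ξ + v)

/-- the negative class -/
def P2 {d : ℕ} (v ξ : Fin d → ℤ) : Prop := ¬ pos (2 • ξ + v) ∧ 2 • ξ + v ≠ 0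

/-- the zero class -/
def P3 {d : ℕ} (v ξ : Fin d → ℤ) : Prop := ¬ pos (2 • ξ + v) ∧ 2 • ξ + v = 0

open Classical in
theorem cs {d : ℕ} (S T : Finset (Fin d → ℤ)) (om : (Fin d → ℤ) → ℝ) (hom : ∀ v, 0 ≤ om v)
    (P : (Fin d → ℤ) → (Fin d → ℤ) → Prop) (K : ℝ)
    (hK : ∀ α ∈ S, ∀ β ∈ S,
      ∑ v ∈ T with (α - v ∈ S ∧ P v (α - v)) ∧ (β + v ∈ S ∧ P v β), om v ≤ K)
    (a : (Fin d → ℤ) → ℝ) :
    ∑ v ∈ T, om v * (∑ ξ ∈ S with ξ + v ∈ S ∧ P v ξ, a (ξ + v) * a ξ) ^ 2 ≤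
      K * (∑ ξ ∈ S, a ξ ^ 2) ^ 2 := by
  have h1 : ∀ v ∈ T, om v * (∑ ξ ∈ S with ξ + v ∈ S ∧ P v ξ, a (ξ + v) * a ξ) ^ 2 ≤
      ∑ α ∈ S, ∑ β ∈ S, a α ^ 2 * a β ^ 2 *
        (if (α - v ∈ S ∧ P v (α - v)) ∧ (β + v ∈ S ∧ P v β) then om v else 0) := by
    intro v _
    have e1 := Finset.sum_mul_sq_le_sq_mul_sq (S.filter fun ξ => ξ + v ∈ S ∧ P v ξ)
      (fun ξ => a (ξ + v)) (fun ξ => a ξ)
    have e2 : ∑ ξ ∈ S with ξ + v ∈ S ∧ P v ξ, a (ξ + v) ^ 2 =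
        ∑ α ∈ S with α - v ∈ S ∧ P v (α - v), a α ^ 2 := by
      refine Finset.sum_nbij' (fun ξ => ξ + v) (fun α => α - v) ?_ ?_ ?_ ?_ ?_
      · intro ξ hξ
        simp only [Finset.mem_filter] at hξ ⊢
        exact ⟨hξ.2.1, by simpa using hξ.1, by simpa using hξ.2.2⟩
      · intro α hα
        simp only [Finset.mem_filter] at hα ⊢
        exact ⟨hα.2.1, by simpa using hα.1, hα.2.2⟩
      · intro ξ _
        simp
      · intro α _
        simp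
      · intro ξ _
        rfl
    calc om v * (∑ ξ ∈ S with ξ + v ∈ S ∧ P v ξ, a (ξ + v) * a ξ) ^ 2
        ≤ om v * ((∑ α ∈ S with α - v ∈ S ∧ P v (α - v), a α ^ 2) *
            (∑ β ∈ S with β + v ∈ S ∧ P v β, a β ^ 2)) := by
          rw [← e2]
          exact mul_le_mul_of_nonneg_left e1 (hom v)
      _ = _ := by
          rw [Finset.sum_filter, Finset.sum_filter, Finset.sum_mul_sum, Finset.mul_sum]
          refine Finset.sum_congr rfl fun α _ => ?_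
          rw [Finset.mul_sum]
          refine Finset.sum_congr rfl fun β _ => ?_
          by_cases hp : α - v ∈ S ∧ P v (α - v)
          · by_cases hq : β + v ∈ S ∧ P v β
            · rw [if_pos hp, if_pos hq, if_pos ⟨hp, hq⟩]
              ring
            · have k : ¬ ((α - v ∈ S ∧ P v (α - v)) ∧ (β + v ∈ S ∧ P v β)) := fun h => hq h.2
              rw [if_neg hq, if_neg k]
              ring
          · have k : ¬ ((α - v ∈ S ∧ P v (α - v)) ∧ (β + v ∈ S ∧ P v β)) := fun h => hp h.1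
            rw [if_neg hp, if_neg k]
            ring
  calc ∑ v ∈ T, om v * (∑ ξ ∈ S with ξ + v ∈ S ∧ P v ξ, a (ξ + v) * a ξ) ^ 2
      ≤ ∑ v ∈ T, ∑ α ∈ S, ∑ β ∈ S, a α ^ 2 * a β ^ 2 *
        (if (α - v ∈ S ∧ P v (α - v)) ∧ (β + v ∈ S ∧ P v β) then om v else 0) :=
        Finset.sum_le_sum h1
    _ = ∑ α ∈ S, ∑ β ∈ S, a α ^ 2 * a β ^ 2 *
        ∑ v ∈ T with (α - v ∈ S ∧ P v (α - v)) ∧ (β + v ∈ S ∧ P v β), om v := by
        rw [Finset.sum_comm]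
        refine Finset.sum_congr rfl fun α _ => ?_
        rw [Finset.sum_comm]
        refine Finset.sum_congr rfl fun β _ => ?_
        rw [Finset.sum_filter, Finset.mul_sum]
    _ ≤ ∑ α ∈ S, ∑ β ∈ S, a α ^ 2 * a β ^ 2 * K := by
        refine Finset.sum_le_sum fun α hα => Finset.sum_le_sum fun β hβ => ?_
        exact mul_le_mul_of_nonneg_left (hK α hα β hβ) (by positivity)
    _ = K * (∑ ξ ∈ S, a ξ ^ 2) ^ 2 := by
        rw [sq (∑ ξ ∈ S, a ξ ^ 2), Finset.sum_mul_sum, Finset.mul_sum]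
        refine Finset.sum_congr rfl fun α _ => ?_
        rw [Finset.mul_sum]
        refine Finset.sum_congr rfl fun β _ => ?_
        ring

theorem sec_of {d : ℕ} {S : Finset (Fin d → ℤ)} {n : ℤ} (hS : ∀ x ∈ S, ∑ i, x i ^ 2 = n)
    {α β v : Fin d → ℤ} (hα : α ∈ S) (hβ : β ∈ S) (hαv : α - v ∈ S) (hβv : β + v ∈ S) :
    Sec α (α + β) v := by
  have h1 := hS _ hα
  have h2 := hS _ hβ
  have h3 := hS _ hαv
  have h4 := hS _ hβv
  have e3 : ∑ i, (α - v) i ^ 2 = ∑ i, α i ^ 2 - 2 * ∑ i, α i * v i + ∑ i, v i ^ 2 := by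
    rw [Finset.mul_sum, ← Finset.sum_sub_distrib, ← Finset.sum_add_distrib]
    refine Finset.sum_congr rfl fun i _ => ?_
    rw [Pi.sub_apply]
    ring
  have e4 : ∑ i, (β + v) i ^ 2 = ∑ i, β i ^ 2 + 2 * ∑ i, β i * v i + ∑ i, v i ^ 2 := by
    rw [Finset.mul_sum, ← Finset.sum_add_distrib, ← Finset.sum_add_distrib]
    refine Finset.sum_congr rfl fun i _ => ?_
    rw [Pi.add_apply]
    ring
  have e5 : ∑ i, (α + β) i * v i = ∑ i, α i * v i + ∑ i, β i * v i := by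
    rw [← Finset.sum_add_distrib]
    refine Finset.sum_congr rfl fun i _ => ?_
    rw [Pi.add_apply]
    ring
  exact ⟨by linarith, by linarith⟩

open Classical in
theorem auto (d : ℕ) (hd : 3 ≤ d) (s : ℝ) (hs : ((d : ℝ) - 3) / 2 < s) : ∃ C : ℝ,
    ∀ n : ℤ, ∀ S : Finset (Fin d → ℤ), (∀ x ∈ S, ∑ i, x i ^ 2 = n) →
    ∀ a : (Fin d → ℤ) → ℝ, (∀ x, x ∉ S → a x = 0) → ∀ T : Finset (Fin d → ℤ),
      ∑ v ∈ T, (1 + ∑ i, (v i : ℝ) ^ 2) ^ (-s) * (∑ ξ ∈ S, a (ξ + v) * a ξ) ^ 2 ≤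
        C * (∑ ξ ∈ S, a ξ ^ 2) ^ 2 := by
  obtain ⟨K, hK0, hK⟩ := wsum d hd s hs
  have hs0 : 0 < s := by
    have : (3 : ℝ) ≤ d := by exact_mod_cast hd
    linarith
  refine ⟨3 * (K + K + 1), ?_⟩
  intro n S hS a ha T
  set om : (Fin d → ℤ) → ℝ := fun v => (1 + ∑ i, (v i : ℝ) ^ 2) ^ (-s) with hom
  have hnn : ∀ v : Fin d → ℤ, 0 ≤ ∑ i, (v i : ℝ) ^ 2 := fun v =>
    Finset.sum_nonneg fun i _ => sq_nonneg _
  have hom0 : ∀ v, 0 ≤ om v := fun v => Real.rpow_nonneg (by linarith [hnn v]) _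
  have hom1 : ∀ v, om v ≤ 1 := fun v =>
    Real.rpow_le_one_of_one_le_of_nonpos (by linarith [hnn v]) (by linarith)
  set A := ∑ ξ ∈ S, a ξ ^ 2 with hA
  -- the three classes
  have hne : ∀ P : (Fin d → ℤ) → (Fin d → ℤ) → Prop,
      (∀ v ξ η, P v ξ → P v η → (2 • ξ + v) + (2 • η + v) ≠ 0) → ∀ α ∈ S, ∀ β ∈ S,
      ∑ v ∈ T with (α - v ∈ S ∧ P v (α - v)) ∧ (β + v ∈ S ∧ P v β), om v ≤ K := by
    intro P hP α hα β hβ
    by_cases hab : α + β = 0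
    · rw [Finset.filter_false_of_mem, Finset.sum_empty]
      · exact hK0
      · intro v _ hv
        apply hP v _ _ hv.1.2 hv.2.2
        have : (2 • (α - v) + v) + (2 • β + v) = 2 • (α + β) := by
          module
        rw [this, hab, smul_zero]
    · apply hK α (α + β) hab
      intro v hv
      have hv' := (Finset.mem_filter.1 hv).2
      exact sec_of hS hα hβ hv'.1.1 hv'.2.1
  have b1 := cs S T om hom0 P1 K (hne P1 fun v ξ η h1 h2 => pos_add _ _ h1 h2) a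
  have b2 := cs S T om hom0 P2 K (hne P2 fun v ξ η h1 h2 => by
    have k1 : pos (-(2 • ξ + v)) := (pos_or _ h1.2).resolve_left h1.1
    have k2 : pos (-(2 • η + v)) := (pos_or _ h2.2).resolve_left h2.1
    intro h0
    apply pos_add _ _ k1 k2
    rw [← neg_add, h0, neg_zero]) a
  have b3 := cs S T om hom0 P3 1 (by
    intro α hα β hβ
    calc ∑ v ∈ T with (α - v ∈ S ∧ P3 v (α - v)) ∧ (β + v ∈ S ∧ P3 v β), om v
        ≤ ∑ v ∈ {2 • α}, om v := by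
          refine Finset.sum_le_sum_of_subset_of_nonneg ?_ fun v _ _ => hom0 v
          intro v hv
          have hv' := (Finset.mem_filter.1 hv).2.1.2.2
          rw [Finset.mem_singleton]
          have : v = 2 • α - (2 • (α - v) + v) := by module
          rw [this, hv', sub_zero]
      _ = om (2 • α) := Finset.sum_singleton _ _
      _ ≤ 1 := hom1 _) a
  have hsplit : ∀ v, ∑ ξ ∈ S, a (ξ + v) * a ξ =
      (∑ ξ ∈ S with ξ + v ∈ S ∧ P1 v ξ, a (ξ + v) * a ξ) +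
      (∑ ξ ∈ S with ξ + v ∈ S ∧ P2 v ξ, a (ξ + v) * a ξ) +
      (∑ ξ ∈ S with ξ + v ∈ S ∧ P3 v ξ, a (ξ + v) * a ξ) := by
    intro v
    rw [Finset.sum_filter, Finset.sum_filter, Finset.sum_filter, ← Finset.sum_add_distrib,
      ← Finset.sum_add_distrib]
    refine Finset.sum_congr rfl fun ξ _ => ?_
    by_cases h0 : ξ + v ∈ S
    · by_cases h1 : pos (2 • ξ + v)
      · have n1 : ξ + v ∈ S ∧ P1 v ξ := ⟨h0, h1⟩
        have n2 : ¬ (ξ + v ∈ S ∧ P2 v ξ) := fun h => h.2.1 h1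
        have n3 : ¬ (ξ + v ∈ S ∧ P3 v ξ) := fun h => h.2.1 h1
        rw [if_pos n1, if_neg n2, if_neg n3]
        ring
      · have n1 : ¬ (ξ + v ∈ S ∧ P1 v ξ) := fun h => h1 h.2
        by_cases h2 : 2 • ξ + v = 0
        · have n2 : ¬ (ξ + v ∈ S ∧ P2 v ξ) := fun h => h.2.2 h2
          have n3 : ξ + v ∈ S ∧ P3 v ξ := ⟨h0, h1, h2⟩
          rw [if_neg n1, if_neg n2, if_pos n3]
          ring
        · have n2 : ξ + v ∈ S ∧ P2 v ξ := ⟨h0, h1, h2⟩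
          have n3 : ¬ (ξ + v ∈ S ∧ P3 v ξ) := fun h => h2 h.2.2
          rw [if_neg n1, if_pos n2, if_neg n3]
          ring
    · rw [ha _ h0]
      simp
  have hA2 : 0 ≤ A ^ 2 := sq_nonneg A
  calc ∑ v ∈ T, om v * (∑ ξ ∈ S, a (ξ + v) * a ξ) ^ 2
      ≤ ∑ v ∈ T, 3 * (om v * (∑ ξ ∈ S with ξ + v ∈ S ∧ P1 v ξ, a (ξ + v) * a ξ) ^ 2 +
          om v * (∑ ξ ∈ S with ξ + v ∈ S ∧ P2 v ξ, a (ξ + v) * a ξ) ^ 2 +
          om v * (∑ ξ ∈ S with ξ + v ∈ S ∧ P3 v ξ, a (ξ + v) * a ξ) ^ 2) := by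
        refine Finset.sum_le_sum fun v _ => ?_
        rw [hsplit v, ← mul_add, ← mul_add, mul_left_comm]
        refine mul_le_mul_of_nonneg_left ?_ (hom0 v)
        set x := ∑ ξ ∈ S with ξ + v ∈ S ∧ P1 v ξ, a (ξ + v) * a ξ
        set y := ∑ ξ ∈ S with ξ + v ∈ S ∧ P2 v ξ, a (ξ + v) * a ξ
        set z := ∑ ξ ∈ S with ξ + v ∈ S ∧ P3 v ξ, a (ξ + v) * a ξ
        nlinarith [sq_nonneg (x - y), sq_nonneg (y - z), sq_nonneg (x - z)]
    _ = 3 * (∑ v ∈ T, om v * (∑ ξ ∈ S with ξ + v ∈ S ∧ P1 v ξ, a (ξ + v) * a ξ) ^ 2 +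
          ∑ v ∈ T, om v * (∑ ξ ∈ S with ξ + v ∈ S ∧ P2 v ξ, a (ξ + v) * a ξ) ^ 2 +
          ∑ v ∈ T, om v * (∑ ξ ∈ S with ξ + v ∈ S ∧ P3 v ξ, a (ξ + v) * a ξ) ^ 2) := by
        rw [← Finset.mul_sum, Finset.sum_add_distrib, Finset.sum_add_distrib]
    _ ≤ 3 * (K * A ^ 2 + K * A ^ 2 + 1 * A ^ 2) := by
        linarith
    _ = 3 * (K + K + 1) * A ^ 2 := by ring

end Pool.Agent.TDS
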