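import Pool.Agent.Lib_helper43.Tori.Rep
import Pool.Agent.Lib_helper91.Div

set_option autoImplicit false

/-!
# Lattice points on circles: a bound which is uniform in the circle

The number of the lattice points of a plane section of a sphere in a cube of side `2 V` is at most
`C V ^ ε`, where `C` depends on `ε` only.
-/

namespace Pool.Agent.TDS

open Pool.Agent.Lib_helper91 Pool.Agent.Lib_helper43.Tori

theorem sq3_zero {x y z : ℤ} (h : x ^ 2 + y ^ 2 + z ^ 2 = 0) : x = 0 ∧ y = 0 ∧ z = 0 := by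
  have hx := sq_nonneg x
  have hy := sq_nonneg y
  have hz := sq_nonneg z
  have q1 : x ^ 2 = 0 := by linarith
  have q2 : y ^ 2 = 0 := by linarith
  have q3 : z ^ 2 = 0 := by linarith
  exact ⟨by simpa using q1, by simpa using q2, by simpa using q3⟩

theorem sq3_pos {x y z : ℤ} (h : ¬ (x = 0 ∧ y = 0 ∧ z = 0)) : 0 < x ^ 2 + y ^ 2 + z ^ 2 := by
  rcases lt_or_eq_of_le (show 0 ≤ x ^ 2 + y ^ 2 + z ^ 2 by positivity) with h' | h'
  · exact h'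
  · exact absurd (sq3_zero h'.symm) h

/-- the points of the section, relative to one of them -/
structure Pt (w0 w1 w2 k0 k1 k2 a b c : ℤ) : Prop where
  lin : w0 * a + w1 * b + w2 * c = 0
  quad : a ^ 2 + b ^ 2 + c ^ 2 = 2 * (k0 * a + k1 * b + k2 * c)

section

variable {w0 w1 w2 k0 k1 k2 a1 b1 c1 a2 b2 c2 a b c : ℤ}

theorem minor_ne (hw : w2 ≠ 0) (h1 : Pt w0 w1 w2 k0 k1 k2 a1 b1 c1)
    (h2 : Pt w0 w1 w2 k0 k1 k2 a2 b2 c2) (n1 : ¬ (a1 = 0 ∧ b1 = 0 ∧ c1 = 0))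
    (n2 : ¬ (a2 = 0 ∧ b2 = 0 ∧ c2 = 0)) (n12 : ¬ (a1 = a2 ∧ b1 = b2 ∧ c1 = c2)) :
    a1 * b2 - b1 * a2 ≠ 0 := by
  intro hD
  have e1 : a1 * c2 - c1 * a2 = 0 := by
    have : w2 * (a1 * c2 - c1 * a2) = 0 := by
      linear_combination a1 * h2.lin - a2 * h1.lin - w1 * hD
    exact (mul_eq_zero.1 this).resolve_left hw
  have e2 : b1 * c2 - c1 * b2 = 0 := by
    have : w2 * (b1 * c2 - c1 * b2) = 0 := by
      linear_combination b1 * h2.lin - b2 * h1.lin + w0 * hD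
    exact (mul_eq_zero.1 this).resolve_left hw
  have p1 := sq3_pos n1
  have p2 := sq3_pos n2
  set N1 := a1 ^ 2 + b1 ^ 2 + c1 ^ 2 with hN1
  set N2 := a2 ^ 2 + b2 ^ 2 + c2 ^ 2 with hN2
  set B := a1 * a2 + b1 * b2 + c1 * c2 with hB
  have f1 : N1 * a2 = B * a1 := by
    rw [hN1, hB]; linear_combination (-b1) * hD - c1 * e1
  have f2 : N1 * b2 = B * b1 := by
    rw [hN1, hB]; linear_combination a1 * hD - c1 * e2
  have f3 : N1 * c2 = B * c1 := by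
    rw [hN1, hB]; linear_combination a1 * e1 + b1 * e2
  have g1 : N2 * a1 = B * a2 := by
    rw [hN2, hB]; linear_combination b2 * hD + c2 * e1
  have g2 : N2 * b1 = B * b2 := by
    rw [hN2, hB]; linear_combination (-a2) * hD + c2 * e2
  have g3 : N2 * c1 = B * c2 := by
    rw [hN2, hB]; linear_combination (-a2) * e1 - b2 * e2
  have hq1 : N1 = 2 * (k0 * a1 + k1 * b1 + k2 * c1) := h1.quad
  have hq2 : N2 = 2 * (k0 * a2 + k1 * b2 + k2 * c2) := h2.quad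
  have r1 : N1 * (N2 - B) = 0 := by
    linear_combination N1 * hq2 + 2 * k0 * f1 + 2 * k1 * f2 + 2 * k2 * f3 - B * hq1
  have r2 : N2 * (N1 - B) = 0 := by
    linear_combination N2 * hq1 + 2 * k0 * g1 + 2 * k1 * g2 + 2 * k2 * g3 - B * hq2
  have s1 : N2 = B := by
    have := (mul_eq_zero.1 r1).resolve_left p1.ne'
    linarith
  have s2 : N1 = B := by
    have := (mul_eq_zero.1 r2).resolve_left p2.ne'
    linarith
  have t : (a1 - a2) ^ 2 + (b1 - b2) ^ 2 + (c1 - c2) ^ 2 = 0 := by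
    have : (a1 - a2) ^ 2 + (b1 - b2) ^ 2 + (c1 - c2) ^ 2 = N1 + N2 - 2 * B := by
      rw [hN1, hN2, hB]; ring
    rw [this, s1, s2]; ring
  apply n12
  obtain ⟨u1, u2, u3⟩ := sq3_zero t
  exact ⟨by linarith, by linarith, by linarith⟩

/-- Cramer's rule -/
theorem cramer (hw : w2 ≠ 0) (h1 : Pt w0 w1 w2 k0 k1 k2 a1 b1 c1)
    (h2 : Pt w0 w1 w2 k0 k1 k2 a2 b2 c2) (h : Pt w0 w1 w2 k0 k1 k2 a b c) :
    (a1 * b2 - b1 * a2) * c = (a * b2 - b * a2) * c1 + (a1 * b - b1 * a) * c2 := by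
  have : w2 * ((a1 * b2 - b1 * a2) * c - ((a * b2 - b * a2) * c1 + (a1 * b - b1 * a) * c2)) = 0 := by
    linear_combination (a1 * b2 - b1 * a2) * h.lin - (a * b2 - b * a2) * h1.lin -
      (a1 * b - b1 * a) * h2.lin
  have h3 := (mul_eq_zero.1 this).resolve_left hw
  linarith

/-- the conic in the coordinates of the two differences -/
theorem conic (hw : w2 ≠ 0) (h1 : Pt w0 w1 w2 k0 k1 k2 a1 b1 c1)
    (h2 : Pt w0 w1 w2 k0 k1 k2 a2 b2 c2) (h : Pt w0 w1 w2 k0 k1 k2 a b c) :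
    (a1 ^ 2 + b1 ^ 2 + c1 ^ 2) * (a * b2 - b * a2) ^ 2 +
      2 * (a1 * a2 + b1 * b2 + c1 * c2) * (a * b2 - b * a2) * (a1 * b - b1 * a) +
      (a2 ^ 2 + b2 ^ 2 + c2 ^ 2) * (a1 * b - b1 * a) ^ 2 =
    (a1 * b2 - b1 * a2) * ((a1 ^ 2 + b1 ^ 2 + c1 ^ 2) * (a * b2 - b * a2) +
      (a2 ^ 2 + b2 ^ 2 + c2 ^ 2) * (a1 * b - b1 * a)) := by
  have hc := cramer hw h1 h2 h
  have ha : (a1 * b2 - b1 * a2) * a = (a * b2 - b * a2) * a1 + (a1 * b - b1 * a) * a2 := by ring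
  have hb : (a1 * b2 - b1 * a2) * b = (a * b2 - b * a2) * b1 + (a1 * b - b1 * a) * b2 := by ring
  generalize hX : a * b2 - b * a2 = X at *
  generalize hY : a1 * b - b1 * a = Y at *
  generalize hΔ : a1 * b2 - b1 * a2 = Δ at *
  have e1 : (a1 ^ 2 + b1 ^ 2 + c1 ^ 2) * X ^ 2 +
      2 * (a1 * a2 + b1 * b2 + c1 * c2) * X * Y + (a2 ^ 2 + b2 ^ 2 + c2 ^ 2) * Y ^ 2 =
      (Δ * a) ^ 2 + (Δ * b) ^ 2 + (Δ * c) ^ 2 := by
    rw [ha, hb, hc]; ring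
  have e2 : (Δ * a) ^ 2 + (Δ * b) ^ 2 + (Δ * c) ^ 2 =
      Δ * (2 * (k0 * (Δ * a) + k1 * (Δ * b) + k2 * (Δ * c))) := by
    linear_combination Δ ^ 2 * h.quad
  rw [e1, e2, ha, hb, hc]
  linear_combination (-Δ * X) * h1.quad - Δ * Y * h2.quad

end

/-- the equation `X² + D Y² = M` -/
theorem form {N1 N2 B Δ X Y : ℤ}
    (h : N1 * X ^ 2 + 2 * B * X * Y + N2 * Y ^ 2 = Δ * (N1 * X + N2 * Y)) :
    (2 * (N1 * N2 - B ^ 2) * Y - Δ * N1 * (N2 - B)) ^ 2 +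
      (N1 * N2 - B ^ 2) * (2 * (N1 * X + B * Y) - Δ * N1) ^ 2 =
    Δ ^ 2 * N1 ^ 2 * ((N1 * N2 - B ^ 2) + (N2 - B) ^ 2) := by
  linear_combination 4 * (N1 * N2 - B ^ 2) * N1 * h

theorem sq_le_of_abs {x V : ℤ} (hx : |x| ≤ V) : x ^ 2 ≤ V ^ 2 := sq_le_sq' (abs_le.1 hx).1 (abs_le.1 hx).2

theorem mul_le_of_abs {x y A B : ℤ} (hx : |x| ≤ A) (hy : |y| ≤ B) : |x * y| ≤ A * B := by
  rw [abs_mul]
  exact mul_le_mul hx hy (abs_nonneg _) ((abs_nonneg _).trans hx)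

/-- the size of the right hand side -/
theorem size {V a1 b1 c1 a2 b2 c2 : ℤ} (u1 : |a1| ≤ 2 * V) (u2 : |b1| ≤ 2 * V)
    (u3 : |c1| ≤ 2 * V) (v1 : |a2| ≤ 2 * V) (v2 : |b2| ≤ 2 * V) (v3 : |c2| ≤ 2 * V)
    {Δ N1 N2 B : ℤ} (hΔ : Δ = a1 * b2 - b1 * a2) (hN1 : N1 = a1 ^ 2 + b1 ^ 2 + c1 ^ 2)
    (hN2 : N2 = a2 ^ 2 + b2 ^ 2 + c2 ^ 2) (hB : B = a1 * a2 + b1 * b2 + c1 * c2) :
    Δ ^ 2 * N1 ^ 2 * ((N1 * N2 - B ^ 2) + (N2 - B) ^ 2) ≤ 6635520 * V ^ 12 := by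
  have x1 := mul_le_of_abs u1 v1
  have x2 := mul_le_of_abs u2 v2
  have x3 := mul_le_of_abs u3 v3
  have y1 := mul_le_of_abs u1 v2
  have y2 := mul_le_of_abs u2 v1
  have z1 := sq_le_of_abs u1
  have z2 := sq_le_of_abs u2
  have z3 := sq_le_of_abs u3
  have t1 := sq_le_of_abs v1
  have t2 := sq_le_of_abs v2
  have t3 := sq_le_of_abs v3
  have e4 : 2 * V * (2 * V) = 4 * V ^ 2 := by ring
  have e4' : (2 * V) ^ 2 = 4 * V ^ 2 := by ring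
  rw [e4] at x1 x2 x3 y1 y2
  rw [e4'] at z1 z2 z3 t1 t2 t3
  have hW : 0 ≤ V ^ 2 := sq_nonneg V
  generalize hWd : V ^ 2 = W at *
  have hBb : |B| ≤ 12 * W := by
    rw [hB]
    rw [abs_le] at x1 x2 x3 ⊢
    constructor <;> linarith [x1.1, x1.2, x2.1, x2.2, x3.1, x3.2]
  have hΔb : |Δ| ≤ 8 * W := by
    rw [hΔ]
    rw [abs_le] at y1 y2 ⊢
    constructor <;> linarith [y1.1, y1.2, y2.1, y2.2]
  have hN1b : N1 ≤ 12 * W := by rw [hN1]; linarith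
  have hN2b : N2 ≤ 12 * W := by rw [hN2]; linarith
  have hN10 : 0 ≤ N1 := by rw [hN1]; positivity
  have hN20 : 0 ≤ N2 := by rw [hN2]; positivity
  clear x1 x2 x3 y1 y2 z1 z2 z3 t1 t2 t3 u1 u2 u3 v1 v2 v3 hΔ hN1 hN2 hB
  have hDb : N1 * N2 - B ^ 2 ≤ 144 * W ^ 2 := by
    have h1 : N1 * N2 ≤ (12 * W) * (12 * W) := mul_le_mul hN1b hN2b hN20 (by positivity)
    have h2 := sq_nonneg B
    have h3 : (12 * W) * (12 * W) = 144 * W ^ 2 := by ring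
    linarith
  have hNB : (N2 - B) ^ 2 ≤ 576 * W ^ 2 := by
    have h5 : |N2 - B| ≤ 24 * W := by
      rw [abs_le] at hBb ⊢
      constructor <;> linarith [hBb.1, hBb.2]
    have h6 := sq_le_of_abs h5
    have h7 : (24 * W) ^ 2 = 576 * W ^ 2 := by ring
    linarith
  have hΔ2b : Δ ^ 2 ≤ 64 * W ^ 2 := by
    have h6 := sq_le_of_abs hΔb
    have h7 : (8 * W) ^ 2 = 64 * W ^ 2 := by ring
    linarith
  have hN12b : N1 ^ 2 ≤ 144 * W ^ 2 := by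
    have h6 : N1 ^ 2 ≤ (12 * W) ^ 2 := pow_le_pow_left₀ hN10 hN1b 2
    have h7 : (12 * W) ^ 2 = 144 * W ^ 2 := by ring
    linarith
  have s1 : Δ ^ 2 * N1 ^ 2 ≤ (64 * W ^ 2) * (144 * W ^ 2) :=
    mul_le_mul hΔ2b hN12b (sq_nonneg _) (by positivity)
  have s2 : (N1 * N2 - B ^ 2) + (N2 - B) ^ 2 ≤ 720 * W ^ 2 := by linarith
  have s3 : Δ ^ 2 * N1 ^ 2 * ((N1 * N2 - B ^ 2) + (N2 - B) ^ 2) ≤
      Δ ^ 2 * N1 ^ 2 * (720 * W ^ 2) := mul_le_mul_of_nonneg_left s2 (by positivity)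
  have s4 : Δ ^ 2 * N1 ^ 2 * (720 * W ^ 2) ≤ (64 * W ^ 2) * (144 * W ^ 2) * (720 * W ^ 2) :=
    mul_le_mul_of_nonneg_right s1 (by positivity)
  have e12 : V ^ 12 = W ^ 6 := by rw [← hWd]; ring
  rw [e12]
  calc _ ≤ _ := s3
    _ ≤ _ := s4
    _ = _ := by ring

/-- the bound in terms of the size -/
theorem root {L : ℕ} (hL : 0 < L) {C₀ : ℝ} (hC₀ : 1 ≤ C₀)
    (hdiv : ∀ n : ℕ, 0 < n → (n.divisors.card : ℝ) ≤ C₀ * (n : ℝ) ^ ((1 : ℝ) / L)) {V : ℕ}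
    (hV : 1 ≤ V) {M : ℤ} (hMp : 0 < M) (hMb : M ≤ 6635520 * (V : ℤ) ^ 12) {K : ℕ}
    (hrep : K ≤ 10 * M.natAbs.divisors.card * M.natAbs.divisors.card) :
    (K : ℝ) ≤ 10 * C₀ ^ 2 * 6635520 ^ 2 * (V : ℝ) ^ ((24 : ℝ) / L) := by
  have hLr : (0 : ℝ) < L := by exact_mod_cast hL
  have hV0 : (0 : ℝ) < V := by exact_mod_cast hV
  have hMn : (M.natAbs : ℤ) = M := Int.natAbs_of_nonneg hMp.le
  have hM0 : 0 < M.natAbs := Int.natAbs_pos.2 hMp.ne'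
  have hd := hdiv M.natAbs hM0
  have hMr : (M.natAbs : ℝ) ≤ 6635520 * (V : ℝ) ^ 12 := by
    have h5 : (M.natAbs : ℤ) ≤ 6635520 * (V : ℤ) ^ 12 := by rw [hMn]; exact hMb
    exact_mod_cast h5
  have hroot : (M.natAbs : ℝ) ^ ((1 : ℝ) / L) ≤ 6635520 * (V : ℝ) ^ ((12 : ℝ) / L) := by
    calc (M.natAbs : ℝ) ^ ((1 : ℝ) / L) ≤ (6635520 * (V : ℝ) ^ 12) ^ ((1 : ℝ) / L) :=
          Real.rpow_le_rpow (by positivity) hMr (by positivity)
      _ = 6635520 ^ ((1 : ℝ) / L) * ((V : ℝ) ^ 12) ^ ((1 : ℝ) / L) :=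
          Real.mul_rpow (by norm_num) (by positivity)
      _ ≤ 6635520 * (V : ℝ) ^ ((12 : ℝ) / L) := by
          have e1 : (6635520 : ℝ) ^ ((1 : ℝ) / L) ≤ 6635520 := by
            calc (6635520 : ℝ) ^ ((1 : ℝ) / L) ≤ 6635520 ^ (1 : ℝ) := by
                  apply Real.rpow_le_rpow_of_exponent_le (by norm_num)
                  rw [div_le_one hLr]
                  exact_mod_cast hL
              _ = 6635520 := Real.rpow_one _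
          have e2 : ((V : ℝ) ^ 12) ^ ((1 : ℝ) / L) = (V : ℝ) ^ ((12 : ℝ) / L) := by
            rw [← Real.rpow_natCast, ← Real.rpow_mul (by positivity)]
            congr 1
            push_cast; ring
          rw [e2]
          gcongr
  have hdd : (M.natAbs.divisors.card : ℝ) ≤ C₀ * (6635520 * (V : ℝ) ^ ((12 : ℝ) / L)) :=
    hd.trans (mul_le_mul_of_nonneg_left hroot (by linarith))
  have hrep' : (K : ℝ) ≤ 10 * (M.natAbs.divisors.card : ℝ) * (M.natAbs.divisors.card : ℝ) := by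
    exact_mod_cast hrep
  calc (K : ℝ) ≤ 10 * (M.natAbs.divisors.card : ℝ) * (M.natAbs.divisors.card : ℝ) := hrep'
    _ ≤ 10 * (C₀ * (6635520 * (V : ℝ) ^ ((12 : ℝ) / L))) * (C₀ * (6635520 * (V : ℝ) ^ ((12 : ℝ) / L))) := by
        gcongr
    _ = 10 * C₀ ^ 2 * 6635520 ^ 2 * ((V : ℝ) ^ ((12 : ℝ) / L) * (V : ℝ) ^ ((12 : ℝ) / L)) := by ring
    _ = 10 * C₀ ^ 2 * 6635520 ^ 2 * (V : ℝ) ^ ((24 : ℝ) / L) := by
        rw [← Real.rpow_add hV0]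
        congr 2
        ring

/-- the map to the representations -/
theorem card_sec {w0 w1 w2 k0 k1 k2 a1 b1 c1 a2 b2 c2 : ℤ} (hw : w2 ≠ 0)
    (h1 : Pt w0 w1 w2 k0 k1 k2 a1 b1 c1) (h2 : Pt w0 w1 w2 k0 k1 k2 a2 b2 c2)
    (hΔ : a1 * b2 - b1 * a2 ≠ 0) (hm : ¬ (a1 = 0 ∧ b1 = 0 ∧ c1 = 0))
    (F : Finset (ℤ × ℤ × ℤ)) (hF : ∀ p ∈ F, Pt w0 w1 w2 k0 k1 k2 p.1 p.2.1 p.2.2)
    {Δ N1 N2 B : ℤ} (hΔd : Δ = a1 * b2 - b1 * a2) (hN1 : N1 = a1 ^ 2 + b1 ^ 2 + c1 ^ 2)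
    (hN2 : N2 = a2 ^ 2 + b2 ^ 2 + c2 ^ 2) (hB : B = a1 * a2 + b1 * b2 + c1 * c2) {M : ℤ}
    (hM : M = Δ ^ 2 * N1 ^ 2 * ((N1 * N2 - B ^ 2) + (N2 - B) ^ 2)) :
    0 < M ∧ F.card ≤ 10 * M.natAbs.divisors.card * M.natAbs.divisors.card := by
  classical
  have hDe : N1 * N2 - B ^ 2 = Δ ^ 2 + (a1 * c2 - c1 * a2) ^ 2 + (b1 * c2 - c1 * b2) ^ 2 := by
    rw [hN1, hN2, hB, hΔd]; ring
  rw [← hΔd] at hΔ
  have hΔ2 : 0 < Δ ^ 2 := by positivity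
  have hD1 : 1 ≤ N1 * N2 - B ^ 2 := by
    rw [hDe]
    have := sq_nonneg (a1 * c2 - c1 * a2)
    have := sq_nonneg (b1 * c2 - c1 * b2)
    linarith
  have hN1p : 0 < N1 := by rw [hN1]; exact sq3_pos hm
  have hMp : 0 < M := by
    rw [hM]
    have h5 : 0 < (N1 * N2 - B ^ 2) + (N2 - B) ^ 2 := by
      have := sq_nonneg (N2 - B)
      linarith
    positivity
  refine ⟨hMp, ?_⟩
  set θ : ℤ × ℤ × ℤ → ℤ × ℤ := fun p =>
    (2 * (N1 * N2 - B ^ 2) * (a1 * p.2.1 - b1 * p.1) - Δ * N1 * (N2 - B),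
      2 * (N1 * (p.1 * b2 - p.2.1 * a2) + B * (a1 * p.2.1 - b1 * p.1)) - Δ * N1) with hθ
  have hθF : ∀ s ∈ F.image θ, s.1 ^ 2 + (N1 * N2 - B ^ 2) * s.2 ^ 2 = M := by
    intro s hs
    obtain ⟨p, hp, rfl⟩ := Finset.mem_image.1 hs
    have hc := conic hw h1 h2 (hF p hp)
    rw [← hN1, ← hN2, ← hB, ← hΔd] at hc
    rw [hM]
    exact form hc
  have hinj : Set.InjOn θ F := by
    intro p hp q hq hpq
    have hp' : p ∈ F := hp
    have hq' : q ∈ F := hq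
    simp only [hθ, Prod.mk.injEq] at hpq
    obtain ⟨i1, i2⟩ := hpq
    have hY : a1 * p.2.1 - b1 * p.1 = a1 * q.2.1 - b1 * q.1 := by
      have h6 : (N1 * N2 - B ^ 2) * ((a1 * p.2.1 - b1 * p.1) - (a1 * q.2.1 - b1 * q.1)) = 0 := by
        linarith
      have h5 := (mul_eq_zero.1 h6).resolve_left (by linarith)
      linarith
    have hX : p.1 * b2 - p.2.1 * a2 = q.1 * b2 - q.2.1 * a2 := by
      rw [hY] at i2
      have h6 : N1 * ((p.1 * b2 - p.2.1 * a2) - (q.1 * b2 - q.2.1 * a2)) = 0 := by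
        linarith
      have h5 := (mul_eq_zero.1 h6).resolve_left hN1p.ne'
      linarith
    have ea : p.1 = q.1 := by
      have h6 : Δ * (p.1 - q.1) = 0 := by
        rw [hΔd]
        linear_combination a1 * hX + a2 * hY
      have h5 := (mul_eq_zero.1 h6).resolve_left hΔ
      linarith
    have eb : p.2.1 = q.2.1 := by
      have h6 : Δ * (p.2.1 - q.2.1) = 0 := by
        rw [hΔd]
        linear_combination b1 * hX + b2 * hY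
      have h5 := (mul_eq_zero.1 h6).resolve_left hΔ
      linarith
    have ec : p.2.2 = q.2.2 := by
      have hl := (hF p hp').lin
      have hl' := (hF q hq').lin
      have h6 : w2 * (p.2.2 - q.2.2) = 0 := by
        rw [ea, eb] at hl
        linear_combination hl - hl'
      have h5 := (mul_eq_zero.1 h6).resolve_left hw
      linarith
    exact Prod.ext ea (Prod.ext eb ec)
  have hrep := card_rep hD1 hMp (F.image θ) hθF
  rwa [Finset.card_image_of_injOn hinj] at hrep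

/-- The number of the lattice points of a circle in a cube is at most `C V ^ ε`, uniformly in the
circle. -/
theorem circ (L : ℕ) (hL : 0 < L) : ∃ C : ℝ, 1 ≤ C ∧ ∀ V : ℕ, 1 ≤ V →
    ∀ w0 w1 w2 k0 k1 k2 h g : ℤ, w2 ≠ 0 → ∀ F : Finset (ℤ × ℤ × ℤ),
      (∀ p ∈ F, |p.1| ≤ V ∧ |p.2.1| ≤ V ∧ |p.2.2| ≤ V ∧
        w0 * p.1 + w1 * p.2.1 + w2 * p.2.2 = h ∧
        p.1 ^ 2 + p.2.1 ^ 2 + p.2.2 ^ 2 = 2 * (k0 * p.1 + k1 * p.2.1 + k2 * p.2.2) + g) →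
      (F.card : ℝ) ≤ C * (V : ℝ) ^ ((24 : ℝ) / L) := by
  classical
  obtain ⟨C₀, hC₀, hdiv⟩ := exists_divisor_bound L hL
  have hLr : (0 : ℝ) < L := by exact_mod_cast hL
  refine ⟨2 + 10 * C₀ ^ 2 * 6635520 ^ 2, by nlinarith [sq_nonneg C₀], ?_⟩
  intro V hV w0 w1 w2 k0 k1 k2 h g hw F hF
  have hV1 : (1 : ℝ) ≤ (V : ℝ) := by exact_mod_cast hV
  have hpow1 : (1 : ℝ) ≤ (V : ℝ) ^ ((24 : ℝ) / L) := Real.one_le_rpow hV1 (by positivity)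
  have hCp : (0 : ℝ) ≤ 10 * C₀ ^ 2 * 6635520 ^ 2 := by positivity
  by_cases hcard : F.card ≤ 2
  · have : (F.card : ℝ) ≤ 2 := by exact_mod_cast hcard
    nlinarith
  push Not at hcard
  obtain ⟨P, P1, P2, hP, hP1, hP2, n1, n2, n12⟩ := Finset.two_lt_card_iff.1 hcard
  -- the differences
  have key : ∀ p ∈ F, Pt w0 w1 w2 (k0 - P.1) (k1 - P.2.1) (k2 - P.2.2)
      (p.1 - P.1) (p.2.1 - P.2.1) (p.2.2 - P.2.2) := by
    intro p hp
    obtain ⟨-, -, -, hl, hq⟩ := hF p hp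
    obtain ⟨-, -, -, hl', hq'⟩ := hF P hP
    refine ⟨by linear_combination hl - hl', ?_⟩
    linear_combination hq - hq'
  have bd : ∀ p ∈ F, |p.1 - P.1| ≤ 2 * V ∧ |p.2.1 - P.2.1| ≤ 2 * V ∧ |p.2.2 - P.2.2| ≤ 2 * V := by
    intro p hp
    obtain ⟨a1, a2, a3, -, -⟩ := hF p hp
    obtain ⟨b1, b2, b3, -, -⟩ := hF P hP
    rw [abs_le] at a1 a2 a3 b1 b2 b3
    refine ⟨?_, ?_, ?_⟩ <;> rw [abs_le] <;> constructor <;> linarith
  have h1 := key P1 hP1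
  have h2 := key P2 hP2
  obtain ⟨u1, u2, u3⟩ := bd P1 hP1
  obtain ⟨v1, v2, v3⟩ := bd P2 hP2
  generalize ha1 : P1.1 - P.1 = a1 at *
  generalize hb1 : P1.2.1 - P.2.1 = b1 at *
  generalize hc1 : P1.2.2 - P.2.2 = c1 at *
  generalize ha2 : P2.1 - P.1 = a2 at *
  generalize hb2 : P2.2.1 - P.2.1 = b2 at *
  generalize hc2 : P2.2.2 - P.2.2 = c2 at *
  have m1 : ¬ (a1 = 0 ∧ b1 = 0 ∧ c1 = 0) := by
    rintro ⟨x, y, z⟩
    apply n1
    refine Prod.ext (by linarith) (Prod.ext (by linarith) (by linarith))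
  have m2 : ¬ (a2 = 0 ∧ b2 = 0 ∧ c2 = 0) := by
    rintro ⟨x, y, z⟩
    apply n2
    refine Prod.ext (by linarith) (Prod.ext (by linarith) (by linarith))
  have m12 : ¬ (a1 = a2 ∧ b1 = b2 ∧ c1 = c2) := by
    rintro ⟨x, y, z⟩
    apply n12
    refine Prod.ext (by linarith) (Prod.ext (by linarith) (by linarith))
  have hΔ := minor_ne hw h1 h2 m1 m2 m12
  set F' : Finset (ℤ × ℤ × ℤ) := F.image fun p => (p.1 - P.1, p.2.1 - P.2.1, p.2.2 - P.2.2) with hF'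
  have hF'c : F'.card = F.card := by
    rw [hF']
    refine Finset.card_image_of_injective _ fun p q hpq => ?_
    simp only [Prod.mk.injEq] at hpq
    obtain ⟨i1, i2, i3⟩ := hpq
    exact Prod.ext (by linarith) (Prod.ext (by linarith) (by linarith))
  have hF'p : ∀ p ∈ F', Pt w0 w1 w2 (k0 - P.1) (k1 - P.2.1) (k2 - P.2.2) p.1 p.2.1 p.2.2 := by
    intro p hp
    obtain ⟨q, hq, rfl⟩ := Finset.mem_image.1 hp
    exact key q hq
  obtain ⟨hMp, hrep⟩ := card_sec hw h1 h2 hΔ m1 F' hF'p rfl rfl rfl rfl rfl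
  rw [hF'c] at hrep
  have hMb := size (V := (V : ℤ)) u1 u2 u3 v1 v2 v3 rfl rfl rfl rfl
  have h9 := root hL hC₀ (fun n hn => hdiv n hn.ne') hV hMp hMb hrep
  refine h9.trans (mul_le_mul_of_nonneg_right ?_ (by positivity))
  linarith

end Pool.Agent.TDS
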