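import Pool.Agent.TDS.Circ

set_option autoImplicit false

/-!
# Lattice points on sections of codimension two through the origin, in every dimension

The number of the `v` in `ℤ ^ d` with `|v|² = 2 ξ·v`, `w·v = 0` (`w ≠ 0`) and coordinates at most `V` in absolute
value is at most `C V ^ (d - 3 + ε)`, uniformly in `ξ` and `w`.
-/

namespace Pool.Agent.TDS

/-- the section -/
structure Sec {d : ℕ} (ξ w v : Fin d → ℤ) : Prop where
  sph : ∑ i, v i ^ 2 = 2 * ∑ i, ξ i * v i
  pln : ∑ i, w i * v i = 0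

theorem sum3 {d : ℕ} {a b j : Fin d} (hab : a ≠ b) (haj : a ≠ j) (hbj : b ≠ j) (f : Fin d → ℤ) :
    ∑ i, f i = f a + f b + f j + ∑ i ∈ ({a, b, j} : Finset (Fin d))ᶜ, f i := by
  classical
  rw [← Finset.sum_add_sum_compl ({a, b, j} : Finset (Fin d)) f]
  congr 1
  rw [Finset.sum_insert (by simp [hab, haj]), Finset.sum_insert (by simp [hbj]),
    Finset.sum_singleton]
  ring

theorem count (d L : ℕ) (hd : 3 ≤ d) (hL : 0 < L) : ∃ C : ℝ, 1 ≤ C ∧ ∀ V : ℕ, 1 ≤ V →
    ∀ ξ w : Fin d → ℤ, w ≠ 0 → ∀ F : Finset (Fin d → ℤ),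
      (∀ v ∈ F, (∀ i, |v i| ≤ V) ∧ Sec ξ w v) →
      (F.card : ℝ) ≤ C * (V : ℝ) ^ ((24 : ℝ) / L) * (3 * (V : ℝ)) ^ (d - 3) := by
  classical
  obtain ⟨C, hC, hcirc⟩ := circ L hL
  refine ⟨C, hC, ?_⟩
  intro V hV ξ w hw F hF
  have hV0 : (0 : ℝ) < V := by exact_mod_cast hV
  obtain ⟨j, hj⟩ : ∃ j, w j ≠ 0 := by
    by_contra hcon
    push Not at hcon
    exact hw (funext hcon)
  obtain ⟨a, ha, b, hb, hab⟩ : ∃ a ∈ (Finset.univ.erase j : Finset (Fin d)),
      ∃ b ∈ (Finset.univ.erase j : Finset (Fin d)), a ≠ b := by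
    apply Finset.one_lt_card.1
    rw [Finset.card_erase_of_mem (Finset.mem_univ j), Finset.card_univ, Fintype.card_fin]
    omega
  have haj : a ≠ j := Finset.ne_of_mem_erase ha
  have hbj : b ≠ j := Finset.ne_of_mem_erase hb
  set A : Finset (Fin d) := {a, b, j} with hA
  have hAc : A.card = 3 := by
    rw [hA, Finset.card_insert_of_notMem (by simp [hab, haj]),
      Finset.card_insert_of_notMem (by simp [hbj]), Finset.card_singleton]
  set ρ : (Fin d → ℤ) → (Fin d → ℤ) := fun v i => if i ∈ A then 0 else v i with hρ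
  set K : ℕ := ⌊C * (V : ℝ) ^ ((24 : ℝ) / L)⌋₊ with hK
  have hCV : 0 ≤ C * (V : ℝ) ^ ((24 : ℝ) / L) := by positivity
  -- the fibres
  have hfib : ∀ c ∈ F.image ρ, (F.filter fun v => ρ v = c).card ≤ K := by
    intro c hc
    obtain ⟨v0, hv0, hv0c⟩ := Finset.mem_image.1 hc
    apply Nat.le_floor
    set E := (F.filter fun v => ρ v = c) with hE
    have hsame : ∀ v ∈ E, ∀ i ∈ Aᶜ, v i = v0 i := by
      intro v hv i hi
      have h1 := (Finset.mem_filter.1 hv).2
      rw [← hv0c] at h1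
      have h2 := congrFun h1 i
      have h3 : i ∉ A := Finset.mem_compl.1 hi
      simpa only [hρ, if_neg h3] using h2
    have hinj : Set.InjOn (fun v : Fin d → ℤ => (v a, v b, v j)) E := by
      intro v hv v' hv' h
      simp only [Prod.mk.injEq] at h
      obtain ⟨i1, i2, i3⟩ := h
      funext i
      by_cases hi : i ∈ A
      · rw [hA, Finset.mem_insert, Finset.mem_insert, Finset.mem_singleton] at hi
        rcases hi with rfl | rfl | rfl
        · exact i1
        · exact i2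
        · exact i3
      · rw [hsame v hv i (Finset.mem_compl.2 hi), hsame v' hv' i (Finset.mem_compl.2 hi)]
    have hmain := hcirc V hV (w a) (w b) (w j) (ξ a) (ξ b) (ξ j)
      (- ∑ i ∈ Aᶜ, w i * v0 i) (2 * (∑ i ∈ Aᶜ, ξ i * v0 i) - ∑ i ∈ Aᶜ, v0 i ^ 2) hj
      (E.image fun v : Fin d → ℤ => (v a, v b, v j)) (by
        intro p hp
        obtain ⟨v, hv, rfl⟩ := Finset.mem_image.1 hp
        obtain ⟨hb1, hb2, hb3⟩ := hF v (Finset.mem_filter.1 hv).1
        rw [sum3 hab haj hbj] at hb3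
        rw [sum3 hab haj hbj, sum3 hab haj hbj] at hb2
        have q1 : ∑ i ∈ Aᶜ, w i * v i = ∑ i ∈ Aᶜ, w i * v0 i :=
          Finset.sum_congr rfl fun i hi => by rw [hsame v hv i hi]
        have q2 : ∑ i ∈ Aᶜ, ξ i * v i = ∑ i ∈ Aᶜ, ξ i * v0 i :=
          Finset.sum_congr rfl fun i hi => by rw [hsame v hv i hi]
        have q3 : ∑ i ∈ Aᶜ, v i ^ 2 = ∑ i ∈ Aᶜ, v0 i ^ 2 :=
          Finset.sum_congr rfl fun i hi => by rw [hsame v hv i hi]
        rw [← hA, q1] at hb3
        rw [← hA, q2, q3] at hb2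
        refine ⟨hb1 a, hb1 b, hb1 j, ?_, ?_⟩
        · simp only
          linarith
        · simp only
          linarith)
    rw [Finset.card_image_of_injOn hinj] at hmain
    exact hmain
  have h1 := Finset.card_le_mul_card_image F K hfib
  -- the image
  have himg : (F.image ρ).card ≤ (2 * V + 1) ^ (d - 3) := by
    have hsub : F.image ρ ⊆ Fintype.piFinset
        (fun i : Fin d => if i ∈ A then ({0} : Finset ℤ) else Finset.Icc (-(V : ℤ)) V) := by
      intro c hc
      obtain ⟨v, hv, rfl⟩ := Finset.mem_image.1 hc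
      rw [Fintype.mem_piFinset]
      intro i
      by_cases hi : i ∈ A
      · simp [hρ, hi]
      · simp only [hρ, if_neg hi, Finset.mem_Icc]
        exact abs_le.1 ((hF v hv).1 i)
    refine (Finset.card_le_card hsub).trans (le_of_eq ?_)
    rw [Fintype.card_piFinset]
    have h2 : ∀ i : Fin d, (if i ∈ A then ({0} : Finset ℤ) else Finset.Icc (-(V : ℤ)) V).card =
        if i ∈ A then 1 else 2 * V + 1 := by
      intro i
      split_ifs
      · simp
      · rw [Int.card_Icc]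
        omega
    rw [Finset.prod_congr rfl fun i _ => h2 i, Finset.prod_ite, Finset.prod_const_one, one_mul,
      Finset.prod_const]
    congr 1
    have h3 : (Finset.univ.filter fun i : Fin d => i ∉ A) = Aᶜ := by
      ext i
      simp
    rw [h3, Finset.card_compl, Fintype.card_fin, hAc]
  have h4 : ((2 * V + 1 : ℕ) : ℝ) ≤ 3 * (V : ℝ) := by
    push_cast
    have : (1 : ℝ) ≤ V := by exact_mod_cast hV
    linarith
  calc (F.card : ℝ) ≤ ((K * (F.image ρ).card : ℕ) : ℝ) := by exact_mod_cast h1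
    _ = (K : ℝ) * ((F.image ρ).card : ℝ) := by push_cast; ring
    _ ≤ (C * (V : ℝ) ^ ((24 : ℝ) / L)) * (3 * (V : ℝ)) ^ (d - 3) := by
        refine mul_le_mul (Nat.floor_le hCV) ?_ (Nat.cast_nonneg _) hCV
        calc ((F.image ρ).card : ℝ) ≤ (((2 * V + 1) ^ (d - 3) : ℕ) : ℝ) := by exact_mod_cast himg
          _ = ((2 * V + 1 : ℕ) : ℝ) ^ (d - 3) := by push_cast; ring
          _ ≤ (3 * (V : ℝ)) ^ (d - 3) := pow_le_pow_left₀ (by positivity) h4 _

/-- the largest coordinate -/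
def mx {d : ℕ} (v : Fin d → ℤ) : ℕ := Finset.univ.sup fun i => (v i).natAbs

theorem le_mx {d : ℕ} (v : Fin d → ℤ) (i : Fin d) : (v i).natAbs ≤ mx v :=
  Finset.le_sup (f := fun i => (v i).natAbs) (Finset.mem_univ i)

theorem mx_sq {d : ℕ} (v : Fin d → ℤ) : ((mx v : ℕ) : ℝ) ^ 2 ≤ ∑ i, (v i : ℝ) ^ 2 := by
  rcases Nat.eq_zero_or_pos (mx v) with h | h
  · rw [h]
    norm_num
    positivity
  · have hne : (Finset.univ : Finset (Fin d)).Nonempty := by
      by_contra hcon
      rw [Finset.not_nonempty_iff_eq_empty] at hcon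
      unfold mx at h
      rw [hcon] at h
      simp at h
    obtain ⟨i, -, hi⟩ := Finset.exists_mem_eq_sup Finset.univ hne (fun i => (v i).natAbs)
    have h1 : ((mx v : ℕ) : ℝ) ^ 2 = (v i : ℝ) ^ 2 := by
      unfold mx
      rw [hi, Nat.cast_natAbs]
      push_cast
      exact sq_abs _
    rw [h1]
    exact Finset.single_le_sum (f := fun i => (v i : ℝ) ^ 2) (fun i _ => by positivity)
      (Finset.mem_univ i)

/-- The sum of the weights over a section is bounded, uniformly in the section. -/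
theorem wsum (d : ℕ) (hd : 3 ≤ d) (s : ℝ) (hs : ((d : ℝ) - 3) / 2 < s) : ∃ K : ℝ, 0 ≤ K ∧
    ∀ ξ w : Fin d → ℤ, w ≠ 0 → ∀ F : Finset (Fin d → ℤ), (∀ v ∈ F, Sec ξ w v) →
      ∑ v ∈ F, (1 + ∑ i, (v i : ℝ) ^ 2) ^ (-s) ≤ K := by
  classical
  have hd3 : (3 : ℝ) ≤ d := by exact_mod_cast hd
  have hs0 : 0 < s := by linarith
  set δ : ℝ := 2 * s - (d - 3) with hδ
  have hδ0 : 0 < δ := by rw [hδ]; linarith
  obtain ⟨L, hL⟩ := exists_nat_gt (24 / δ)
  have hL0 : 0 < L := by
    have : (0 : ℝ) < L := lt_trans (by positivity) hL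
    exact_mod_cast this
  have hLr : (0 : ℝ) < L := by exact_mod_cast hL0
  have hexp : (24 : ℝ) / L < δ := by
    rw [div_lt_iff₀ hδ0] at hL
    rw [div_lt_iff₀ hLr]
    linarith
  obtain ⟨C, hC, hcount⟩ := count d L hd hL0
  set t : ℝ := (24 : ℝ) / L with ht
  have ht0 : 0 < t := by positivity
  set r : ℝ := (2 : ℝ) ^ ((d : ℝ) - 3 + t - 2 * s) with hr
  have hr0 : 0 < r := by positivity
  have hr1 : r < 1 := by
    rw [hr]
    apply Real.rpow_lt_one_of_one_lt_of_neg (by norm_num)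
    rw [hδ] at hexp
    linarith
  set C' : ℝ := C * (2 : ℝ) ^ t * 6 ^ (d - 3) with hC'
  have hC'0 : 0 ≤ C' := by positivity
  refine ⟨C' * (1 - r)⁻¹, by
    have : 0 < 1 - r := by linarith
    positivity, ?_⟩
  intro ξ w hw F hF
  set kk : (Fin d → ℤ) → ℕ := fun v => Nat.log 2 (mx v) with hkk
  -- one shell
  have hshell : ∀ k : ℕ, ∑ v ∈ F with kk v = k, (1 + ∑ i, (v i : ℝ) ^ 2) ^ (-s) ≤ C' * r ^ k := by
    intro k
    have hwt : ∀ v ∈ F.filter (fun v => kk v = k), (1 + ∑ i, (v i : ℝ) ^ 2) ^ (-s) ≤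
        (2 : ℝ) ^ (-(2 * s) * k) := by
      intro v hv
      have h1 : kk v = k := (Finset.mem_filter.1 hv).2
      have h2 : ((2 : ℝ) ^ k) ^ 2 ≤ 1 + ∑ i, (v i : ℝ) ^ 2 := by
        rcases Nat.eq_zero_or_pos (mx v) with h | h
        · have : k = 0 := by
            rw [← h1, hkk]
            simp only
            rw [h]
            simp
          rw [this]
          have : 0 ≤ ∑ i, (v i : ℝ) ^ 2 := by positivity
          norm_num
          exact this
        · have h3 : 2 ^ k ≤ mx v := by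
            rw [← h1, hkk]
            exact Nat.pow_log_le_self 2 h.ne'
          have h4 : (2 : ℝ) ^ k ≤ (mx v : ℝ) := by exact_mod_cast h3
          have h5 : ((2 : ℝ) ^ k) ^ 2 ≤ (mx v : ℝ) ^ 2 := pow_le_pow_left₀ (by positivity) h4 2
          have h6 := mx_sq v
          linarith
      calc (1 + ∑ i, (v i : ℝ) ^ 2) ^ (-s) ≤ (((2 : ℝ) ^ k) ^ 2) ^ (-s) :=
            Real.rpow_le_rpow_of_nonpos (by positivity) h2 (by linarith)
        _ = (2 : ℝ) ^ (-(2 * s) * k) := by
            rw [← Real.rpow_natCast (2 : ℝ) k, ← Real.rpow_natCast _ 2, ← Real.rpow_mul (by norm_num),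
              ← Real.rpow_mul (by norm_num)]
            congr 1
            push_cast
            ring
    have hcard : ((F.filter fun v => kk v = k).card : ℝ) ≤
        C * (((2 ^ (k + 1) : ℕ) : ℝ)) ^ t * (3 * (((2 ^ (k + 1) : ℕ) : ℝ))) ^ (d - 3) := by
      refine hcount (2 ^ (k + 1)) Nat.one_le_two_pow ξ w hw _ fun v hv => ⟨fun i => ?_, hF v (Finset.mem_filter.1 hv).1⟩
      have h1 : kk v = k := (Finset.mem_filter.1 hv).2
      have h2 : mx v < 2 ^ (k + 1) := by
        rw [← h1, hkk]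
        exact Nat.lt_pow_succ_log_self (by norm_num) _
      have h3 := le_mx v i
      have h4 : |v i| = ((v i).natAbs : ℤ) := (Int.natCast_natAbs (v i)).symm
      rw [h4]
      exact_mod_cast (h3.trans h2.le)
    calc ∑ v ∈ F with kk v = k, (1 + ∑ i, (v i : ℝ) ^ 2) ^ (-s)
        ≤ ∑ v ∈ F with kk v = k, (2 : ℝ) ^ (-(2 * s) * k) := Finset.sum_le_sum hwt
      _ = ((F.filter fun v => kk v = k).card : ℝ) * (2 : ℝ) ^ (-(2 * s) * k) := by
          rw [Finset.sum_const, nsmul_eq_mul]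
      _ ≤ (C * (((2 ^ (k + 1) : ℕ) : ℝ)) ^ t * (3 * (((2 ^ (k + 1) : ℕ) : ℝ))) ^ (d - 3)) *
          (2 : ℝ) ^ (-(2 * s) * k) := mul_le_mul_of_nonneg_right hcard (by positivity)
      _ = C' * r ^ k := by
          have e1 : (((2 ^ (k + 1) : ℕ) : ℝ)) ^ t = (2 : ℝ) ^ t * (2 : ℝ) ^ (t * k) := by
            rw [← Real.rpow_add two_pos]
            push_cast
            rw [← Real.rpow_natCast, ← Real.rpow_mul (by norm_num)]
            congr 1
            push_cast
            ring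
          have e2 : (3 * (((2 ^ (k + 1) : ℕ) : ℝ))) ^ (d - 3) =
              6 ^ (d - 3) * (2 : ℝ) ^ (((d : ℝ) - 3) * k) := by
            have e3 : (3 * (((2 ^ (k + 1) : ℕ) : ℝ))) = 6 * (2 : ℝ) ^ k := by
              push_cast
              rw [pow_succ]
              ring
            rw [e3, mul_pow, ← pow_mul, ← Real.rpow_natCast (2 : ℝ) (k * (d - 3))]
            congr 2
            push_cast [Nat.cast_sub hd]
            ring
          have e4 : r ^ k = (2 : ℝ) ^ (t * k) * (2 : ℝ) ^ (((d : ℝ) - 3) * k) *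
              (2 : ℝ) ^ (-(2 * s) * k) := by
            rw [hr, ← Real.rpow_natCast, ← Real.rpow_mul (by norm_num), ← Real.rpow_add two_pos,
              ← Real.rpow_add two_pos]
            congr 1
            ring
          rw [e1, e2, e4, hC']
          ring
  calc ∑ v ∈ F, (1 + ∑ i, (v i : ℝ) ^ 2) ^ (-s)
      = ∑ k ∈ F.image kk, ∑ v ∈ F with kk v = k, (1 + ∑ i, (v i : ℝ) ^ 2) ^ (-s) :=
        (Finset.sum_fiberwise_of_maps_to (fun v hv => Finset.mem_image_of_mem kk hv) _).symm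
    _ ≤ ∑ k ∈ F.image kk, C' * r ^ k := Finset.sum_le_sum fun k _ => hshell k
    _ = C' * ∑ k ∈ F.image kk, r ^ k := by rw [Finset.mul_sum]
    _ ≤ C' * (1 - r)⁻¹ := by
        refine mul_le_mul_of_nonneg_left ?_ hC'0
        rw [← tsum_geometric_of_lt_one hr0.le hr1]
        exact (summable_geometric_of_lt_one hr0.le hr1).sum_le_tsum _ fun k _ => by positivity

end Pool.Agent.TDS
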